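import Pool.Agent.W424.KI.Stm

/-!
# Project KI (helper424), task BADZ: the bad events have small probability
-/

set_option autoImplicit false

namespace Pool.Agent.W723.KI
open H974 H906.Cyl
open Pool.Agent.W801.OU
open Pool.Agent.W424.KI

theorem t_BADZ : S_BADK → S_ZP → S_BADZ := by
  intro hB hZ N L hN hL δ hδ
  obtain ⟨K, hK⟩ := hZ N L hN hL (δ / 2) (half_pos hδ)
  obtain ⟨M3, M4, hK3, h64, h644, hbad⟩ := hB N L hN hL (δ / 2) (half_pos hδ) K
  refine ⟨M3, M4, h64, h644, fun c r R hc hr hR => ?_⟩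
  unfold PF
  refine le_trans (Pr_or_le (okq (q := 1/2) (by norm_num) (by norm_num)) _ _ _) ?_
  have h1 := hbad c r R hc hr hR
  have hρ : 1 ≤ r / M3 := by
    rw [Nat.one_le_div_iff (by omega)]
    omega
  have hKr : K * (r / M3) ≤ r :=
    le_trans (Nat.mul_le_mul_right _ hK3) (Nat.mul_div_le r M3)
  have h2 := hK (r / M3) r R hρ hKr hR
  unfold PF at h1 h2
  linarith

end Pool.Agent.W723.KI
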