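import Pool.Agent.W424.KI.Stm
import Pool.Agent.W808.KZ.T_ZP

/-!
# Project KI (helper424), task ZP: crossings around the two points of the zipper
-/

set_option autoImplicit false

namespace Pool.Agent.W723.KI
open H974 H906.Cyl
open Pool.Agent.H160R2.ML (nm)
open Pool.Agent.W801.OU
open Pool.Agent.W808.KZ (ZCr)
open Pool.Agent.W424.KI

namespace TZP
open Pool.Agent.W808.KZ.TZP (exit mono dg_bd)

/-- squares near the zipper belong to the box -/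
theorem near_box {P r R : ℕ} (hr : 16 ≤ r) (hP : 16 * r ≤ P) (hR : 4 * P ≤ R) {e : Edg}
    (h1 : |e.1 + e.2.1| ≤ r) (h2 : |dco e + 2 * P| ≤ r) : e ∈ boxE R := by
  obtain ⟨x, y, b⟩ := e
  rw [abs_le] at h1 h2
  unfold boxE
  cases b
  · simp only [dco, Bool.false_eq_true, if_false] at h1 h2
    rw [mem_RE_false]
    omega
  · simp only [dco, if_true] at h1 h2
    rw [mem_RE_true]
    omega

/-- one point of the zipper -/
theorem one {δ : ℝ} {K : ℕ} (hK : 1 ≤ K) (h : ∀ (a b : ℕ) (t0 : ℤ), 1 ≤ a → K * a ≤ b →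
    t0 ≤ -(4 * b : ℤ) → ∀ (S : Finset Edg) (B : Set Edg), (∀ e ∈ B, e ∈ S) →
    (∀ e ∈ B, |e.1 + e.2.1| ≤ 2 * b ∧ |dco e - t0| ≤ 2 * b) →
    Pr (fun _ => (1 / 2 : ℝ)) S (fun F => ZCr {0} B (↑F : Set Edg) t0 a b) ≤ δ)
    (m ρ r R : ℕ) (hm : 16 ≤ m) (hρ : 1 ≤ ρ) (hr : 64 * K * ρ ≤ r) (hR : 4 * (m * r) ≤ R) :
    PF R (fun F => ZCr {0} {e | |e.1 + e.2.1| ≤ r ∧ |dco e + 2 * m * r| ≤ r} (↑F : Set Edg)
      (-(2 * m * r)) (16 * ρ) (r / 2)) ≤ δ := by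
  set b : ℕ := r / 2 with hb
  have hKρ : 1 * ρ ≤ K * ρ := Nat.mul_le_mul_right ρ hK
  have hr' : 64 * (K * ρ) ≤ r := by rw [← mul_assoc]; exact hr
  have hab : K * (16 * ρ) ≤ b := by
    have : K * (16 * ρ) = 16 * (K * ρ) := by ring
    omega
  have hmr : 16 * r ≤ m * r := Nat.mul_le_mul_right r hm
  have hb2 : 2 * b ≤ r := by omega
  have h16 : 16 * ρ < b := by omega
  set t0 : ℤ := -(2 * m * r) with ht0
  have ht0' : t0 = -(2 * ((m * r : ℕ) : ℤ)) := by rw [ht0]; push_cast; ring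
  set B : Set Edg := {e | |e.1 + e.2.1| ≤ 2 * b ∧ |dco e - t0| ≤ 2 * b} with hB
  have hBS : ∀ e ∈ B, e ∈ boxE R := by
    rintro e ⟨h1, h2⟩
    refine near_box (P := m * r) (r := r) (by omega) hmr hR (le_trans h1 (by omega)) ?_
    have h3 : dco e + 2 * ((m * r : ℕ) : ℤ) = dco e - t0 := by rw [ht0']; ring
    rw [h3]
    exact le_trans h2 (by omega)
  have hmain := h (16 * ρ) b t0 (by omega) hab (by omega) (boxE R) B hBS (fun e he => he)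
  refine le_trans ?_ hmain
  unfold PF
  apply Pr_mono (okq (q := 1/2) (by norm_num) (by norm_num))
  rintro F - ⟨x, y, hx1, hx2, hy, hxy⟩
  have hbz : ((b : ℕ) : ℤ) = (r : ℤ) / 2 := by rw [hb]; push_cast; rfl
  rw [← hbz] at hy
  -- the near points
  set D : ℤ × ℤ → Prop := fun p => |p.1| < b ∧ |p.2 - t0| < b with hD
  have hDx : D x := by
    refine ⟨lt_of_le_of_lt hx1 ?_, lt_of_le_of_lt hx2 ?_⟩ <;> omega
  have hDy : ¬ D y := by
    rintro ⟨h1, h2⟩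
    rcases hy with h3 | h3 <;> omega
  have hex := (exit (D := D) hxy).1 hDx
  have hlk : ∀ u v : ℤ × ℤ, (LZ {0} {e | |e.1 + e.2.1| ≤ r ∧ |dco e + 2 * m * r| ≤ r}
      (↑F : Set Edg) u v ∧ (D u ∨ D v)) → LZ {0} B (↑F : Set Edg) u v := by
    rintro u v ⟨⟨e, -, hez, he⟩, hDD⟩
    have hbd : (e.1 + e.2.1 - 1 ≤ u.1 ∧ u.1 ≤ e.1 + e.2.1 + 1 ∧ dco e ≤ u.2 ∧ u.2 ≤ dco e + 1) ∧
        (e.1 + e.2.1 - 1 ≤ v.1 ∧ v.1 ≤ e.1 + e.2.1 + 1 ∧ dco e ≤ v.2 ∧ v.2 ≤ dco e + 1) := by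
      rcases he with ⟨-, he⟩ | ⟨-, he⟩
      · exact dg_bd he
      · exact dg_bd he
    have hnear : |e.1 + e.2.1| ≤ b ∧ |dco e - t0| ≤ b := by
      rw [abs_le, abs_le]
      rcases hDD with ⟨h1, h2⟩ | ⟨h1, h2⟩ <;> rw [abs_lt] at h1 h2 <;> omega
    have heB : e ∈ B := by
      refine ⟨le_trans hnear.1 ?_, le_trans hnear.2 ?_⟩ <;> omega
    exact ⟨e, heB, hez, he⟩
  have hpush : ((16 * ρ : ℕ) : ℤ) = 16 * (ρ : ℤ) := by push_cast; rfl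
  rcases hex with ⟨h1, -⟩ | ⟨z, hz, hxz⟩
  · exact absurd h1 hDy
  · refine ⟨x, z, ?_, ?_, ?_, mono hlk hxz⟩
    · rw [hpush]; exact hx1
    · rw [hpush]; exact hx2
    · by_contra hcon
      push Not at hcon
      exact hz hcon

end TZP

theorem t_ZP : Pool.Agent.W808.KZ.S_ZC → S_ZP := by
  intro hZC N L hN hL δ hδ
  obtain ⟨K, hK, h⟩ := hZC (δ / 2) (half_pos hδ)
  refine ⟨64 * K, fun ρ r R hρ hr hR => ?_⟩
  have h1 := TZP.one hK h N ρ r R hN hρ hr (by nlinarith)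
  have h2 := TZP.one hK h L ρ r R (by omega) hρ hr hR
  unfold PF at h1 h2 ⊢
  unfold BZ
  refine le_trans (Pr_or_le (okq (q := 1/2) (by norm_num) (by norm_num)) _ _ _) ?_
  linarith

end Pool.Agent.W723.KI
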